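import Pool.Agent.H9.FatPoint.Rank

/-!
# Every admissible ideal belongs to the family
-/

namespace Pool.Agent.H9.FatPoint

open MvPolynomial

variable {R : Type} [CommRing R]

/-- A homogeneous polynomial is the sum of its terms over any finite set containing all the
monomials of its degree. -/
theorem eq_sum_of_weight (d : ℤ × ℤ) (s : Finset (Fin 3 →₀ ℕ))
    (hs : ∀ m, Finsupp.weight deg3 m = d → m ∈ s) (p : MvPolynomial (Fin 3) R)
    (hp : p ∈ weightedHomogeneousSubmodule R deg3 d) :
    p = ∑ m ∈ s, coeff m p • monomial m (1 : R) := by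
  classical
  rw [mem_weightedHomogeneousSubmodule] at hp
  have h1 : p = ∑ m ∈ p.support, coeff m p • monomial m (1 : R) := by
    conv_lhs => rw [p.as_sum]
    refine Finset.sum_congr rfl fun m _ => ?_
    rw [smul_monomial, smul_eq_mul, mul_one]
  conv_lhs => rw [h1]
  refine Finset.sum_subset (fun m hm => hs m ?_) (fun m _ hm => ?_)
  · by_contra h
    exact (mem_support_iff.1 hm) (hp.coeff_eq_zero m h)
  · rw [notMem_support_iff.1 hm, zero_smul]

theorem hilb_eq_zero (a b : ℤ) (h : a < 0 ∨ 2 < a ∨ b < 0 ∨ 3 < b ∨ (a, b) = (2, 0)) :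
    hilb (a, b) = 0 := by
  rw [hilb, Fintype.card_eq_zero_iff]
  refine ⟨fun ⟨s, hs⟩ => ?_⟩
  rw [Prod.mk.injEq] at h
  fin_cases s <;> simp [wts] at hs <;> omega

/-- In degrees where the Hilbert function vanishes, everything is in the ideal. -/
theorem mem_of_hilb_eq_zero {I : Ideal (MvPolynomial (Fin 3) R)} (h : IsAdmissible deg3 hilb I)
    (d : ℤ × ℤ) (hd : hilb d = 0) (p : MvPolynomial (Fin 3) R)
    (hp : p ∈ weightedHomogeneousSubmodule R deg3 d) : p ∈ I := by
  obtain ⟨h1, h2, h3⟩ := h.2 d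
  rw [hd] at h3
  have h4 : Module.rankAtStalk (R := R) (↥(weightedHomogeneousSubmodule R deg3 d) ⧸
      (I.restrictScalars R).comap (weightedHomogeneousSubmodule R deg3 d).subtype) = 0 := by
    funext p
    rw [h3]
    rfl
  rw [Module.rankAtStalk_eq_zero_iff_subsingleton] at h4
  have h5 := h4.elim (Submodule.Quotient.mk ⟨p, hp⟩) 0
  rw [Submodule.Quotient.mk_eq_zero] at h5
  exact h5

theorem monomial_mem_hom (i j l : ℕ) (r : R) :
    monomial (E i j l) r ∈ weightedHomogeneousSubmodule R deg3 ((i : ℤ) + l, (j : ℤ) + l) := by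
  rw [mem_weightedHomogeneousSubmodule]
  apply isWeightedHomogeneous_monomial
  rw [weight_E]

theorem monomial_mem {I : Ideal (MvPolynomial (Fin 3) R)} (h : IsAdmissible deg3 hilb I)
    (i j l : ℕ) (hd : hilb ((i : ℤ) + l, (j : ℤ) + l) = 0) (r : R) :
    monomial (E i j l) r ∈ I :=
  mem_of_hilb_eq_zero h _ hd _ (monomial_mem_hom i j l r)

/-- The map `(a, b) ↦ a x^i y^j z^l + b x^i' y^j' z^l'`. -/
noncomputable def two (m m' : Fin 3 →₀ ℕ) : R × R →ₗ[R] MvPolynomial (Fin 3) R :=
  (monomial m).coprod (monomial m')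

theorem two_apply (m m' : Fin 3 →₀ ℕ) (v : R × R) :
    two m m' v = monomial m v.1 + monomial m' v.2 := rfl

theorem hilb_eq_one : hilb (1, 2) = 1 ∧ hilb (2, 2) = 1 ∧ hilb (2, 3) = 1 := by
  refine ⟨?_, ?_, ?_⟩ <;> rfl

theorem mul_X0 (i j l : ℕ) (r : R) :
    monomial (E i j l) r * X 0 = monomial (E (i + 1) j l) r := by
  have h : E i j l + Finsupp.single 0 1 = E (i + 1) j l := by
    ext s
    fin_cases s <;> simp
  rw [X, monomial_mul, mul_one, h]

theorem mul_X1 (i j l : ℕ) (r : R) :
    monomial (E i j l) r * X 1 = monomial (E i (j + 1) l) r := by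
  have h : E i j l + Finsupp.single 1 1 = E i (j + 1) l := by
    ext s
    fin_cases s <;> simp
  rw [X, monomial_mul, mul_one, h]

theorem mul_X2 (i j l : ℕ) (r : R) :
    monomial (E i j l) r * X 2 = monomial (E i j (l + 1)) r := by
  have h : E i j l + Finsupp.single 2 1 = E i j (l + 1) := by
    ext s
    fin_cases s <;> simp
  rw [X, monomial_mul, mul_one, h]

theorem mem_of_weight (m : Fin 3 →₀ ℕ) (a b : ℕ) (h : Finsupp.weight deg3 m = ((a : ℤ), (b : ℤ))) :
    ∃ l ≤ a, l ≤ b ∧ m = E (a - l) (b - l) l := by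
  rw [E_eta m, weight_E, Prod.mk.injEq] at h
  refine ⟨m 2, by omega, by omega, ?_⟩
  conv_lhs => rw [E_eta m]
  rw [E_inj]
  omega

theorem expand (a b n : ℕ) (hn : min a b + 1 = n) (p : MvPolynomial (Fin 3) R)
    (hp : p ∈ weightedHomogeneousSubmodule R deg3 ((a : ℤ), (b : ℤ))) :
    p = ∑ l ∈ Finset.range n, monomial (E (a - l) (b - l) l) (q (a - l) (b - l) l p) := by
  classical
  have h := eq_sum_of_weight ((a : ℤ), (b : ℤ))
    ((Finset.range n).image fun l => E (a - l) (b - l) l) (fun m hm => by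
      obtain ⟨l, h1, h2, rfl⟩ := mem_of_weight m a b hm
      exact Finset.mem_image.2 ⟨l, Finset.mem_range.2 (by omega), rfl⟩) p hp
  rw [Finset.sum_image] at h
  · conv_lhs => rw [h]
    refine Finset.sum_congr rfl fun l _ => ?_
    rw [smul_monomial, smul_eq_mul, mul_one, q_apply]
  · intro l _ l' _ hl
    exact (E_inj.1 hl).2.2

section

variable {I : Ideal (MvPolynomial (Fin 3) R)} (h : IsAdmissible deg3 hilb I)

include h

theorem x2_mem (j : ℕ) (r : R) : monomial (E 2 j 0) r ∈ I := by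
  induction j with
  | zero =>
    refine monomial_mem h 2 0 0 ?_ r
    exact hilb_eq_zero _ _ (by simp)
  | succ j ih =>
    rw [← mul_X1]
    exact I.mul_mem_right _ ih

theorem L12 : LocFree R ((R × R) ⧸ (I.restrictScalars R).comap (two (E 1 2 0) (E 0 1 1))) 1 := by
  have := locFree_comap h (1, 2) (two (E 1 2 0) (E 0 1 1)) (fun v => ?_) (fun p hp => ?_)
  · rwa [hilb_eq_one.1] at this
  · rw [two_apply]
    exact Submodule.add_mem _ (by simpa using monomial_mem_hom 1 2 0 v.1)
      (by simpa using monomial_mem_hom 0 1 1 v.2)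
  · refine ⟨(q 1 2 0 p, q 0 1 1 p), ?_⟩
    have := expand 1 2 2 rfl p (by simpa using hp)
    simp only [Finset.sum_range_succ, Finset.sum_range_zero, zero_add, Nat.reduceSub] at this
    rw [two_apply, sub_eq_zero.2 this.symm]
    exact I.zero_mem

theorem L22 : LocFree R ((R × R) ⧸ (I.restrictScalars R).comap (two (E 1 1 1) (E 0 0 2))) 1 := by
  have := locFree_comap h (2, 2) (two (E 1 1 1) (E 0 0 2)) (fun v => ?_) (fun p hp => ?_)
  · rwa [hilb_eq_one.2.1] at this
  · rw [two_apply]
    exact Submodule.add_mem _ (by simpa using monomial_mem_hom 1 1 1 v.1)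
      (by simpa using monomial_mem_hom 0 0 2 v.2)
  · refine ⟨(q 1 1 1 p, q 0 0 2 p), ?_⟩
    have := expand 2 2 3 rfl p (by simpa using hp)
    simp only [Finset.sum_range_succ, Finset.sum_range_zero, zero_add, Nat.reduceSub,
      Nat.sub_zero] at this
    rw [two_apply]
    have e1 : monomial (E 1 1 1) (q 1 1 1 p, q 0 0 2 p).1
        + monomial (E 0 0 2) (q 1 1 1 p, q 0 0 2 p).2 - p = -monomial (E 2 2 0) (q 2 2 0 p) := by
      linear_combination -this
    rw [e1]
    exact I.neg_mem (x2_mem h 2 _)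

theorem L23 : LocFree R ((R × R) ⧸ (I.restrictScalars R).comap (two (E 1 2 1) (E 0 1 2))) 1 := by
  have := locFree_comap h (2, 3) (two (E 1 2 1) (E 0 1 2)) (fun v => ?_) (fun p hp => ?_)
  · rwa [hilb_eq_one.2.2] at this
  · rw [two_apply]
    exact Submodule.add_mem _ (by simpa using monomial_mem_hom 1 2 1 v.1)
      (by simpa using monomial_mem_hom 0 1 2 v.2)
  · refine ⟨(q 1 2 1 p, q 0 1 2 p), ?_⟩
    have := expand 2 3 3 rfl p (by simpa using hp)
    simp only [Finset.sum_range_succ, Finset.sum_range_zero, zero_add, Nat.reduceSub,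
      Nat.sub_zero] at this
    rw [two_apply]
    have e1 : monomial (E 1 2 1) (q 1 2 1 p, q 0 1 2 p).1
        + monomial (E 0 1 2) (q 1 2 1 p, q 0 1 2 p).2 - p = -monomial (E 2 3 0) (q 2 3 0 p) := by
      linear_combination -this
    rw [e1]
    exact I.neg_mem (x2_mem h 3 _)

theorem exists_beta_of_admissible : ∃ β : R, β * β = 0 ∧
    (∀ r, monomial (E 1 2 0) r + monomial (E 0 1 1) (β * r) ∈ I) ∧
    (∀ r, monomial (E 1 1 1) r + monomial (E 0 0 2) (β * r) ∈ I) := by
  have hle1 : (I.restrictScalars R).comap (two (E 1 2 0) (E 0 1 1))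
      ≤ (I.restrictScalars R).comap (two (E 1 2 1) (E 0 1 2)) := by
    intro v hv
    rw [Submodule.mem_comap, Submodule.restrictScalars_mem, two_apply] at hv ⊢
    have := I.mul_mem_right (X 2) hv
    rwa [add_mul, mul_X2, mul_X2] at this
  have hle2 : (I.restrictScalars R).comap (two (E 1 1 1) (E 0 0 2))
      ≤ (I.restrictScalars R).comap (two (E 1 2 1) (E 0 1 2)) := by
    intro v hv
    rw [Submodule.mem_comap, Submodule.restrictScalars_mem, two_apply] at hv ⊢
    have := I.mul_mem_right (X 1) hv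
    rwa [add_mul, mul_X1, mul_X1] at this
  have heq : (I.restrictScalars R).comap (two (E 1 2 0) (E 0 1 1))
      = (I.restrictScalars R).comap (two (E 1 1 1) (E 0 0 2)) :=
    (LocFree.eq_of_le (L12 h) (L23 h) hle1).trans (LocFree.eq_of_le (L22 h) (L23 h) hle2).symm
  obtain ⟨β, hβ, hmem⟩ := exists_beta _ (L12 h) (fun v hv => by
    rw [heq, Submodule.mem_comap, Submodule.restrictScalars_mem, two_apply]
    rw [Submodule.mem_comap, Submodule.restrictScalars_mem, two_apply] at hv
    have h1 := I.mul_mem_right (X 0) hv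
    rw [add_mul, mul_X0, mul_X0] at h1
    have h2 := I.sub_mem h1 (x2_mem h 2 v.1)
    simpa using h2)
  refine ⟨β, hβ, fun r => ?_, fun r => ?_⟩
  · have := (hmem (r, β * r)).2 rfl
    exact this
  · have := (hmem (r, β * r)).2 rfl
    rw [heq] at this
    exact this

theorem mem_of_mem_idl {β : R} (hβ : β * β = 0)
    (h12 : ∀ r, monomial (E 1 2 0) r + monomial (E 0 1 1) (β * r) ∈ I)
    (h22 : ∀ r, monomial (E 1 1 1) r + monomial (E 0 0 2) (β * r) ∈ I) (d : ℤ × ℤ)
    (p : MvPolynomial (Fin 3) R) (hp : p ∈ weightedHomogeneousSubmodule R deg3 d)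
    (hpi : p ∈ idl β hβ) : p ∈ I := by
  obtain ⟨a, b⟩ := d
  by_cases h0 : hilb (a, b) = 0
  · exact mem_of_hilb_eq_zero h _ h0 p hp
  have ha : 0 ≤ a ∧ a ≤ 2 ∧ 0 ≤ b ∧ b ≤ 3 := by
    by_contra hc
    exact h0 (hilb_eq_zero a b (by omega))
  rw [mem_idl, F_forall] at hpi
  obtain ⟨c0, c1, c2, c3, c4, c5, c6, c7, c8, c9, c10, c11⟩ := hpi
  obtain ⟨ha1, ha2, hb1, hb2⟩ := ha
  have key : ∀ (a b n : ℕ) (hn : min a b + 1 = n),
      p ∈ weightedHomogeneousSubmodule R deg3 ((a : ℤ), (b : ℤ)) →
      ∑ l ∈ Finset.range n, monomial (E (a - l) (b - l) l) (q (a - l) (b - l) l p) ∈ I → p ∈ I := by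
    intro a b n hn hp hs
    rw [expand a b n hn p hp]
    exact hs
  interval_cases a <;> interval_cases b
  · refine key 0 0 1 rfl hp ?_
    simp [Finset.sum_range_succ, c0]
  · refine key 0 1 1 rfl hp ?_
    simp [Finset.sum_range_succ, c1]
  · refine key 0 2 1 rfl hp ?_
    simp [Finset.sum_range_succ, c2]
  · refine key 0 3 1 rfl hp ?_
    simp [Finset.sum_range_succ, c3]
  · refine key 1 0 1 rfl hp ?_
    simp [Finset.sum_range_succ, c4]
  · refine key 1 1 2 rfl hp ?_
    simp [Finset.sum_range_succ, c5, c6]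
  · refine key 1 2 2 rfl hp ?_
    simp only [Finset.sum_range_succ, Finset.sum_range_zero, zero_add, Nat.reduceSub, c7,
      Nat.sub_zero]
    exact h12 _
  · refine key 1 3 2 rfl hp ?_
    simp only [Finset.sum_range_succ, Finset.sum_range_zero, zero_add, Nat.reduceSub, c8,
      Nat.sub_zero]
    have := I.mul_mem_right (X 1) (h12 (q 1 3 0 p))
    rwa [add_mul, mul_X1, mul_X1] at this
  · exact absurd (hilb_eq_zero 2 0 (by simp)) h0
  · refine key 2 1 2 rfl hp ?_
    simp only [Finset.sum_range_succ, Finset.sum_range_zero, zero_add, Nat.reduceSub, c9,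
      Nat.sub_zero, map_zero, add_zero]
    exact x2_mem h 1 _
  · refine key 2 2 3 rfl hp ?_
    simp only [Finset.sum_range_succ, Finset.sum_range_zero, zero_add, Nat.reduceSub, c10,
      Nat.sub_zero, add_assoc]
    exact I.add_mem (x2_mem h 2 _) (h22 _)
  · refine key 2 3 3 rfl hp ?_
    simp only [Finset.sum_range_succ, Finset.sum_range_zero, zero_add, Nat.reduceSub, c11,
      Nat.sub_zero, add_assoc]
    have := I.mul_mem_right (X 2) (h12 (q 1 2 1 p))
    rw [add_mul, mul_X2, mul_X2] at this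
    exact I.add_mem (x2_mem h 3 _) this

theorem exists_idl : ∃ (β : R) (hβ : β * β = 0), idl β hβ = I := by
  obtain ⟨β, hβ, h12, h22⟩ := exists_beta_of_admissible h
  refine ⟨β, hβ, le_antisymm (fun p hp => ?_) (fun p hp => ?_)⟩
  · rw [← sum_weightedHomogeneousComponent deg3 p]
    refine finsum_induction (p := fun p => p ∈ I) I.zero_mem (fun x y hx hy => I.add_mem hx hy)
      (fun d => ?_)
    exact mem_of_mem_idl h hβ h12 h22 d _ (weightedHomogeneousComponent_isWeightedHomogeneous d p)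
      (idl_hom β hβ p hp d)
  · rw [mem_idl]
    intro s
    have hle : ((idl β hβ).restrictScalars R).comap
        (weightedHomogeneousSubmodule R deg3 (wts s)).subtype ≤
        (I.restrictScalars R).comap (weightedHomogeneousSubmodule R deg3 (wts s)).subtype :=
      fun x hx => mem_of_mem_idl h hβ h12 h22 _ _ x.2 hx
    have heq := LocFree.eq_of_le ((idl_admissible β hβ).2 (wts s)) (h.2 (wts s)) hle
    have hc : weightedHomogeneousComponent deg3 (wts s) p ∈ I := h.1 p hp _
    have hx : (⟨_, weightedHomogeneousComponent_isWeightedHomogeneous (wts s) p⟩ :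
        weightedHomogeneousSubmodule R deg3 (wts s)) ∈
        (I.restrictScalars R).comap (weightedHomogeneousSubmodule R deg3 (wts s)).subtype := hc
    rw [← heq] at hx
    have hx2 : weightedHomogeneousComponent deg3 (wts s) p ∈ idl β hβ := hx
    rw [mem_idl] at hx2
    have := hx2 s
    rwa [F_component, if_pos rfl] at this

end

theorem exists_idl_iff (I : Ideal (MvPolynomial (Fin 3) R)) :
    (∃ (β : R) (hβ : β * β = 0), idl β hβ = I) ↔ IsAdmissible deg3 hilb I := by
  constructor
  · rintro ⟨β, hβ, rfl⟩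
    exact idl_admissible β hβ
  · exact fun h => exists_idl h

end Pool.Agent.H9.FatPoint
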