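import Mathlib

/-!
# Multigraded Hilbert schemes: definitions
-/

namespace Pool.Agent.H9.FatPoint

open MvPolynomial

/-- The `R`-module `M` is locally free of rank `r`: finitely generated, projective, and of rank
`r` at every prime of `R`. -/
def LocFree (R M : Type) [CommRing R] [AddCommGroup M] [Module R M] (r : ℕ) : Prop :=
  Module.Finite R M ∧ Module.Projective R M ∧
    ∀ p : PrimeSpectrum R, Module.rankAtStalk M p = r

/-- `I` is a homogeneous ideal of `R[x_1, …, x_n]` for the grading `deg x_i = deg i ∈ A`, and for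
every `a ∈ A` the component of degree `a` of the quotient is locally free of rank `h a`. -/
def IsAdmissible {n : ℕ} {A : Type} [AddCommGroup A] (deg : Fin n → A) (h : A → ℕ)
    {R : Type} [CommRing R] (I : Ideal (MvPolynomial (Fin n) R)) : Prop :=
  (∀ p ∈ I, ∀ a, weightedHomogeneousComponent deg a p ∈ I) ∧
    ∀ a, LocFree R (↥(weightedHomogeneousSubmodule R deg a) ⧸
      (I.restrictScalars R).comap (weightedHomogeneousSubmodule R deg a).subtype) (h a)

/-- The functor of the multigraded Hilbert scheme of `k[x_1, …, x_n]`, for the grading `deg` and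
the Hilbert function `h`, is represented by `Spec B`: the admissible ideals over `R` are in
bijection with the `k`-algebra maps `B → R`, naturally in the `k`-algebra `R`. So the multigraded
Hilbert scheme is isomorphic to `Spec B`. -/
def IsRepresentedBy {n : ℕ} {A : Type} [AddCommGroup A] (deg : Fin n → A) (h : A → ℕ)
    (k B : Type) [Field k] [CommRing B] [Algebra k B] : Prop :=
  ∃ J : ∀ (R : Type) [CommRing R] [Algebra k R],
      (B →ₐ[k] R) → Ideal (MvPolynomial (Fin n) R),
    (∀ (R : Type) [CommRing R] [Algebra k R], Function.Injective (J R) ∧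
      ∀ I : Ideal (MvPolynomial (Fin n) R), (∃ u, J R u = I) ↔ IsAdmissible deg h I) ∧
    ∀ (R R' : Type) [CommRing R] [Algebra k R] [CommRing R'] [Algebra k R']
      (φ : R →ₐ[k] R') (u : B →ₐ[k] R),
      J R' (φ.comp u) = (J R u).map (MvPolynomial.map (φ : R →+* R'))

/-- The grading of `k[x, y, z]` by `ℤ²` with `deg x = (1, 0)`, `deg y = (0, 1)`,
`deg z = (1, 1)`. -/
def deg3 : Fin 3 → ℤ × ℤ := ![(1, 0), (0, 1), (1, 1)]

/-- Twelve degrees, one of them, `(1, 1)`, with multiplicity two. -/
def wts : Fin 12 → ℤ × ℤ :=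
  ![(0, 0), (0, 1), (0, 2), (0, 3), (1, 0), (1, 1), (1, 1), (1, 2), (1, 3), (2, 1), (2, 2), (2, 3)]

/-- The Hilbert function: the value at `d` is the number of times that `d` occurs in `wts`. -/
def hilb (d : ℤ × ℤ) : ℕ := Fintype.card {s : Fin 12 // wts s = d}

end Pool.Agent.H9.FatPoint
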