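import Pool.Agent.H9.FatPoint.Std

/-!
# The ideals, their graded pieces, and base change
-/

namespace Pool.Agent.H9.FatPoint

open MvPolynomial

variable {R : Type} [CommRing R]

theorem F_mul_X (β : R) (hβ : β * β = 0) (p : MvPolynomial (Fin 3) R)
    (hp : ∀ s, F β s p = 0) (i : Fin 3) : ∀ s, F β s (p * X i) = 0 := by
  rw [F_forall] at hp ⊢
  obtain ⟨h0, h1, h2, h3, h4, h5, h6, h7, h8, h9, h10, h11⟩ := hp
  have hββ : ∀ x : R, β * (β * x) = 0 := fun x => by rw [← mul_assoc, hβ, zero_mul]
  fin_cases i
  · simp only [Fin.zero_eta, Fin.isValue, q_mul_X0]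
    simp [h0, h1, h2, h3, h6, h7, h8, hββ]
  · simp only [Fin.mk_one, Fin.isValue, q_mul_X1]
    simp [h0, h1, h2, h4, h5, h6, h7, h9, h10]
  · simp only [Fin.reduceFinMk, Fin.isValue, q_mul_X2]
    simp [h0, h1, h2, h4, h5, h6, h7]

/-- The ideal attached to `β` with `β² = 0`. -/
noncomputable def idl (β : R) (hβ : β * β = 0) : Ideal (MvPolynomial (Fin 3) R) where
  carrier := {p | ∀ s, F β s p = 0}
  zero_mem' := fun s => map_zero _
  add_mem' := fun {a b} ha hb s => by rw [map_add, ha s, hb s, add_zero]
  smul_mem' := by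
    intro c p hp
    rw [smul_eq_mul]
    induction c using MvPolynomial.induction_on with
    | C a =>
      intro s
      rw [← smul_eq_C_mul, map_smul, hp s, smul_zero]
    | add a b ha hb =>
      intro s
      rw [add_mul, map_add, ha s, hb s, add_zero]
    | mul_X a i ha =>
      have h : a * X i * p = (a * p) * X i := by ring
      rw [h]
      exact F_mul_X β hβ _ ha i

theorem mem_idl (β : R) (hβ : β * β = 0) (p : MvPolynomial (Fin 3) R) :
    p ∈ idl β hβ ↔ ∀ s, F β s p = 0 := Iff.rfl

/-- The functionals are dual to the standard monomials. -/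
theorem F_e (β : R) (s t : Fin 12) : F β s (monomial (e t) 1) = if s = t then 1 else 0 := by
  classical
  have hq : ∀ i j l i' j' l' : ℕ, q i j l (monomial (E i' j' l') (1 : R))
      = if (i' = i ∧ j' = j ∧ l' = l) then 1 else 0 := by
    intro i j l i' j' l'
    rw [q_apply, coeff_monomial]
    simp only [E_inj]
  fin_cases s <;> fin_cases t <;> simp [F, e, hq]

theorem weight_e (s : Fin 12) : Finsupp.weight deg3 (e s) = wts s := by
  fin_cases s <;> simp [e, wts, weight_E]

/-- The functional `F β s` only sees monomials of degree `wts s`. -/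
theorem F_of_ne (β : R) (s : Fin 12) (d : ℤ × ℤ) (hd : wts s ≠ d) (p : MvPolynomial (Fin 3) R)
    (hp : p ∈ weightedHomogeneousSubmodule R deg3 d) : F β s p = 0 := by
  rw [mem_weightedHomogeneousSubmodule] at hp
  have hq : ∀ i j l : ℕ, ((i : ℤ) + l, (j : ℤ) + l) ≠ d → q i j l p = 0 := by
    intro i j l h
    rw [q_apply]
    apply hp.coeff_eq_zero
    rw [weight_E]
    exact h
  fin_cases s <;> simp [wts] at hd <;> simp [F] <;> (try rw [hq _ _ _ (by simpa using hd)]) <;>
    (try rw [hq _ _ _ (by simpa using hd)]) <;> simp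

theorem F_component (β : R) (s : Fin 12) (d : ℤ × ℤ) (p : MvPolynomial (Fin 3) R) :
    F β s (weightedHomogeneousComponent deg3 d p) = if wts s = d then F β s p else 0 := by
  classical
  have hq : ∀ i j l : ℕ, q i j l (weightedHomogeneousComponent deg3 d p)
      = if ((i : ℤ) + l, (j : ℤ) + l) = d then q i j l p else 0 := by
    intro i j l
    rw [q_apply, coeff_weightedHomogeneousComponent, weight_E]
    rfl
  fin_cases s <;> simp [F, hq, wts] <;> split_ifs <;> simp_all

theorem idl_hom (β : R) (hβ : β * β = 0) (p : MvPolynomial (Fin 3) R) (hp : p ∈ idl β hβ)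
    (d : ℤ × ℤ) : weightedHomogeneousComponent deg3 d p ∈ idl β hβ := by
  rw [mem_idl] at hp ⊢
  intro s
  rw [F_component]
  split_ifs
  · exact hp s
  · rfl

/-- A module isomorphic to `R^ι` is locally free of rank the cardinality of `ι`. -/
theorem locFree_pi {M : Type} [AddCommGroup M] [Module R M] {ι : Type} [Fintype ι]
    (f : M ≃ₗ[R] (ι → R)) : LocFree R M (Fintype.card ι) := by
  have h1 : Module.Free R M := Module.Free.of_equiv f.symm
  have h2 : Module.Finite R M := Module.Finite.equiv f.symm
  refine ⟨h2, inferInstance, fun p => ?_⟩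
  haveI : Nontrivial R := p.nontrivial
  rw [Module.rankAtStalk_eq_of_equiv f, Module.rankAtStalk_eq_finrank_of_free]
  simp

theorem idl_admissible (β : R) (hβ : β * β = 0) : IsAdmissible deg3 hilb (idl β hβ) := by
  classical
  refine ⟨idl_hom β hβ, fun d => ?_⟩
  set S := weightedHomogeneousSubmodule R deg3 d with hS
  -- the coordinates of degree `d`
  let g : S →ₗ[R] ({s : Fin 12 // wts s = d} → R) :=
    LinearMap.pi fun s => (F β s.1).comp S.subtype
  have hker : LinearMap.ker g = ((idl β hβ).restrictScalars R).comap S.subtype := by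
    ext p
    rw [LinearMap.mem_ker, Submodule.mem_comap, Submodule.restrictScalars_mem, mem_idl]
    constructor
    · intro h s
      by_cases hs : wts s = d
      · exact congrFun h ⟨s, hs⟩
      · exact F_of_ne β s d hs _ p.2
    · intro h
      funext s
      exact h s.1
  have hsurj : Function.Surjective g := by
    intro v
    refine ⟨⟨∑ s : {s : Fin 12 // wts s = d}, v s • monomial (e s.1) (1 : R), ?_⟩, ?_⟩
    · refine Submodule.sum_mem _ fun s _ => Submodule.smul_mem _ _ ?_
      rw [hS, mem_weightedHomogeneousSubmodule]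
      apply isWeightedHomogeneous_monomial
      rw [weight_e]
      exact s.2
    · funext t
      change F β t.1 (∑ s : {s : Fin 12 // wts s = d}, v s • monomial (e s.1) (1 : R)) = v t
      rw [map_sum, Finset.sum_eq_single t]
      · rw [map_smul, F_e, if_pos rfl, smul_eq_mul, mul_one]
      · intro s _ hs
        rw [map_smul, F_e, if_neg, smul_zero]
        intro h
        exact hs (Subtype.ext h.symm)
      · simp
  have f : (S ⧸ LinearMap.ker g) ≃ₗ[R] ({s : Fin 12 // wts s = d} → R) :=
    g.quotKerEquivOfSurjective hsurj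
  rw [← hker]
  exact locFree_pi f

/-- Every polynomial is congruent to its normal form. -/
theorem sub_mem_idl (β : R) (hβ : β * β = 0) (p : MvPolynomial (Fin 3) R) :
    p - ∑ s, F β s p • monomial (e s) (1 : R) ∈ idl β hβ := by
  classical
  rw [mem_idl]
  intro t
  rw [map_sub, map_sum, Finset.sum_eq_single t]
  · rw [map_smul, F_e, if_pos rfl, smul_eq_mul, mul_one, sub_self]
  · intro s _ hs
    rw [map_smul, F_e, if_neg hs.symm, smul_zero]
  · simp

theorem F_map {R' : Type} [CommRing R'] (φ : R →+* R') (β : R) (p : MvPolynomial (Fin 3) R)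
    (s : Fin 12) : F (φ β) s (MvPolynomial.map φ p) = φ (F β s p) := by
  have hq : ∀ i j l : ℕ, q i j l (MvPolynomial.map φ p) = φ (q i j l p) := by
    intro i j l
    rw [q_apply, q_apply, coeff_map]
  fin_cases s <;> simp [F, hq]

theorem idl_map {R' : Type} [CommRing R'] (φ : R →+* R') (β : R) (hβ : β * β = 0)
    (hβ' : φ β * φ β = 0) :
    idl (φ β) hβ' = (idl β hβ).map (MvPolynomial.map φ) := by
  apply le_antisymm
  · intro p hp
    rw [mem_idl] at hp
    have h1 : p = ∑ m ∈ p.support, C (coeff m p) *
        MvPolynomial.map φ (monomial m 1 - ∑ s, F β s (monomial m 1) • monomial (e s) (1 : R)) := by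
      have h2 : ∀ m : Fin 3 →₀ ℕ, MvPolynomial.map φ
          (monomial m 1 - ∑ s, F β s (monomial m 1) • monomial (e s) (1 : R))
          = monomial m 1 - ∑ s, F (φ β) s (monomial m 1) • monomial (e s) (1 : R') := by
        intro m
        rw [map_sub, map_monomial, map_one, map_sum]
        congr 1
        refine Finset.sum_congr rfl fun s _ => ?_
        have h3 := F_map φ β (monomial m 1) s
        rw [map_monomial, map_one] at h3
        rw [h3, smul_monomial, smul_monomial, map_monomial, smul_eq_mul, smul_eq_mul, mul_one,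
          mul_one]
      simp only [h2]
      have h4 : ∀ m : Fin 3 →₀ ℕ, C (coeff m p) * (monomial m 1
          - ∑ s, F (φ β) s (monomial m 1) • monomial (e s) (1 : R'))
          = monomial m (coeff m p)
            - ∑ s, F (φ β) s (monomial m (coeff m p)) • monomial (e s) (1 : R') := by
        intro m
        rw [mul_sub, C_mul_monomial, mul_one, Finset.mul_sum]
        congr 1
        refine Finset.sum_congr rfl fun s _ => ?_
        have h5 : (monomial m (coeff m p) : MvPolynomial (Fin 3) R')
            = coeff m p • monomial m 1 := by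
          rw [smul_monomial, smul_eq_mul, mul_one]
        rw [h5, map_smul, smul_eq_mul, mul_smul]
        simp only [smul_eq_C_mul]
      simp only [h4]
      rw [Finset.sum_sub_distrib, ← p.as_sum, Finset.sum_comm]
      have h6 : ∀ s, ∑ m ∈ p.support, F (φ β) s (monomial m (coeff m p)) • monomial (e s) (1 : R')
          = 0 := by
        intro s
        rw [← Finset.sum_smul, ← map_sum, ← p.as_sum, hp s, zero_smul]
      simp only [h6, Finset.sum_const_zero, sub_zero]
    rw [h1]
    exact Ideal.sum_mem _ fun m _ => Ideal.mul_mem_left _ _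
      (Ideal.mem_map_of_mem _ (sub_mem_idl β hβ _))
  · rw [Ideal.map_le_iff_le_comap]
    intro p hp
    rw [Ideal.mem_comap, mem_idl]
    intro s
    rw [mem_idl] at hp
    rw [F_map, hp s, map_zero]

end Pool.Agent.H9.FatPoint
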