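import Pool.Agent.H9.FatPoint.Converse

/-!
# The multigraded Hilbert scheme is the spectrum of the dual numbers
-/

namespace Pool.Agent.H9.FatPoint

open MvPolynomial

/-- The parameter of an ideal of the family is unique. -/
theorem idl_inj {R : Type} [CommRing R] {β β' : R} (hβ : β * β = 0) (hβ' : β' * β' = 0)
    (h : idl β hβ = idl β' hβ') : β = β' := by
  classical
  have h1 : monomial (E 1 2 0) 1 - ∑ s, F β s (monomial (E 1 2 0) 1) • monomial (e s) (1 : R)
      ∈ idl β hβ := sub_mem_idl β hβ _
  have hq : ∀ i j l i' j' l' : ℕ, q i j l (monomial (E i' j' l') (1 : R))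
      = if (i' = i ∧ j' = j ∧ l' = l) then 1 else 0 := by
    intro i j l i' j' l'
    rw [q_apply, coeff_monomial]
    simp only [E_inj]
  rw [h, mem_idl] at h1
  have h2 := h1 7
  rw [map_sub, map_sum, Finset.sum_eq_single 7] at h2
  · rw [map_smul, F_e, if_pos rfl, smul_eq_mul, mul_one] at h2
    have h3 : ∀ γ : R, F γ 7 (monomial (E 1 2 0) 1) = -γ := by
      intro γ
      change q 0 1 1 (monomial (E 1 2 0) 1) - γ • q 1 2 0 (monomial (E 1 2 0) 1) = -γ
      rw [hq, hq]
      simp
    rw [h3, h3] at h2
    linear_combination h2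
  · intro s _ hs
    rw [map_smul, F_e, if_neg hs.symm, smul_zero]
  · simp

theorem sq_zero {k R : Type} [Field k] [CommRing R] [Algebra k R] (u : DualNumber k →ₐ[k] R) :
    u DualNumber.eps * u DualNumber.eps = 0 := by
  rw [← map_mul, DualNumber.eps_mul_eps, map_zero]

theorem idl_congr {R : Type} [CommRing R] {β β' : R} (h : β = β') (hβ : β * β = 0)
    (hβ' : β' * β' = 0) : idl β hβ = idl β' hβ' := by
  subst h
  rfl

theorem exists_hom (k : Type) {R : Type} [Field k] [CommRing R] [Algebra k R] (β : R)
    (hβ : β * β = 0) : ∃ u : DualNumber k →ₐ[k] R, u DualNumber.eps = β :=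
  ⟨DualNumber.lift ⟨(Algebra.ofId k R, β), hβ, fun _ => mul_comm _ _⟩,
    DualNumber.lift_apply_eps _⟩

theorem isRepresentedBy (k : Type) [Field k] : IsRepresentedBy deg3 hilb k (DualNumber k) := by
  refine ⟨fun R _ _ u => idl (u DualNumber.eps) (sq_zero u), ?_, ?_⟩
  · intro R _ _
    refine ⟨?_, ?_⟩
    · intro u v huv
      apply DualNumber.algHom_ext
      exact idl_inj _ _ huv
    · intro I
      rw [← exists_idl_iff]
      constructor
      · rintro ⟨u, rfl⟩
        exact ⟨_, _, rfl⟩
      · rintro ⟨β, hβ, rfl⟩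
        obtain ⟨u, hu⟩ := exists_hom k β hβ
        exact ⟨u, idl_congr hu _ _⟩
  · intro R R' _ _ _ _ φ u
    exact idl_map (φ : R →+* R') (u DualNumber.eps) (sq_zero u) (sq_zero (φ.comp u))

theorem artinian (k : Type) [Field k] : IsArtinianRing (DualNumber k) := by
  haveI : Module.Finite k (DualNumber k) := inferInstanceAs (Module.Finite k (k × k))
  exact IsArtinianRing.of_finite k (DualNumber k)

theorem not_field (k : Type) [Field k] : ¬ IsField (DualNumber k) := by
  intro h
  have h1 : (DualNumber.eps : DualNumber k) ≠ 0 := by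
    intro h
    have := congrArg TrivSqZeroExt.snd h
    simp at this
  obtain ⟨b, hb⟩ := h.mul_inv_cancel h1
  have h2 : (DualNumber.eps : DualNumber k) = 0 := by
    calc (DualNumber.eps : DualNumber k) = DualNumber.eps * (DualNumber.eps * b) := by
          rw [hb, mul_one]
      _ = 0 := by rw [← mul_assoc, DualNumber.eps_mul_eps, zero_mul]
  exact h1 h2

end Pool.Agent.H9.FatPoint
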