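import Pool.Agent.H9.FatPoint.Ideal

/-!
# Submodules with locally free quotients
-/

namespace Pool.Agent.H9.FatPoint

open MvPolynomial TensorProduct

variable {R : Type} [CommRing R]

theorem LocFree.of_equiv {M N : Type} [AddCommGroup M] [Module R M] [AddCommGroup N] [Module R N]
    {r : ℕ} (h : LocFree R M r) (f : M ≃ₗ[R] N) : LocFree R N r := by
  obtain ⟨h1, h2, h3⟩ := h
  refine ⟨Module.Finite.equiv f, Module.Projective.of_equiv f, fun p => ?_⟩
  rw [← Module.rankAtStalk_eq_of_equiv f]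
  exact h3 p

theorem LocFree.eq_of_le {V : Type} [AddCommGroup V] [Module R V] {N1 N2 : Submodule R V} {r : ℕ}
    (h1 : LocFree R (V ⧸ N1) r) (h2 : LocFree R (V ⧸ N2) r) (h : N1 ≤ N2) : N1 = N2 := by
  obtain ⟨f1, p1, r1⟩ := h1
  obtain ⟨f2, p2, r2⟩ := h2
  have hs : Function.Surjective (Submodule.factor h) := Submodule.factor_surjective h
  have hb := Module.bijective_of_surjective_of_rankAtStalk_eq hs (fun m hm => by rw [r1, r2])
  refine le_antisymm h fun x hx => ?_
  rw [← Submodule.Quotient.mk_eq_zero]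
  apply hb.1
  rw [map_zero]
  exact (Submodule.Quotient.mk_eq_zero N2).2 hx

/-- Pulling back an admissible ideal along a map onto a graded piece of the quotient. -/
theorem locFree_comap {I : Ideal (MvPolynomial (Fin 3) R)} (h : IsAdmissible deg3 hilb I)
    (d : ℤ × ℤ) {V : Type} [AddCommGroup V] [Module R V] (ψ : V →ₗ[R] MvPolynomial (Fin 3) R)
    (hψ : ∀ v, ψ v ∈ weightedHomogeneousSubmodule R deg3 d)
    (hs : ∀ p ∈ weightedHomogeneousSubmodule R deg3 d, ∃ v, ψ v - p ∈ I) :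
    LocFree R (V ⧸ (I.restrictScalars R).comap ψ) (hilb d) := by
  let ψ' : V →ₗ[R] weightedHomogeneousSubmodule R deg3 d := ψ.codRestrict _ hψ
  let N : Submodule R (weightedHomogeneousSubmodule R deg3 d) :=
    (I.restrictScalars R).comap (weightedHomogeneousSubmodule R deg3 d).subtype
  let g : V →ₗ[R] (weightedHomogeneousSubmodule R deg3 d ⧸ N) := N.mkQ.comp ψ'
  have hker : LinearMap.ker g = (I.restrictScalars R).comap ψ := by
    ext v
    rw [LinearMap.mem_ker]
    change N.mkQ (ψ' v) = 0 ↔ _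
    rw [Submodule.mkQ_apply, Submodule.Quotient.mk_eq_zero]
    rfl
  have hsurj : Function.Surjective g := by
    intro y
    obtain ⟨p, rfl⟩ := N.mkQ_surjective y
    obtain ⟨v, hv⟩ := hs p.1 p.2
    refine ⟨v, ?_⟩
    change N.mkQ (ψ' v) = N.mkQ p
    rw [← sub_eq_zero, ← map_sub, Submodule.mkQ_apply, Submodule.Quotient.mk_eq_zero]
    exact hv
  rw [← hker]
  exact LocFree.of_equiv (h.2 d) (g.quotKerEquivOfSurjective hsurj).symm

/-- If `L ⊆ 𝔞 × 𝔞` and the quotient of `R × R` by `L` has rank one, then `𝔞 = R`. -/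
theorem eq_top_of_rank_one (L : Submodule R (R × R)) (hL : LocFree R ((R × R) ⧸ L) 1)
    (a : Ideal R) (ha : ∀ v ∈ L, v.1 ∈ a ∧ v.2 ∈ a) : a = ⊤ := by
  by_contra hne
  obtain ⟨m, hm, ham⟩ := Ideal.exists_le_maximal a hne
  obtain ⟨h1, h2, h3⟩ := hL
  letI : Field (R ⧸ m) := Ideal.Quotient.field m
  let f0 : R × R →ₗ[R] (R ⧸ m) × (R ⧸ m) :=
    (Algebra.linearMap R (R ⧸ m)).prodMap (Algebra.linearMap R (R ⧸ m))
  have hf0 : L ≤ LinearMap.ker f0 := by
    intro v hv
    rw [LinearMap.mem_ker]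
    obtain ⟨ha1, ha2⟩ := ha v hv
    refine Prod.ext ?_ ?_
    · exact Ideal.Quotient.eq_zero_iff_mem.2 (ham ha1)
    · exact Ideal.Quotient.eq_zero_iff_mem.2 (ham ha2)
  let f : ((R × R) ⧸ L) →ₗ[R] (R ⧸ m) × (R ⧸ m) := L.liftQ f0 hf0
  let F' := f.liftBaseChange (R ⧸ m)
  have hsurj : Function.Surjective F' := by
    rintro ⟨x, y⟩
    refine ⟨x ⊗ₜ (L.mkQ (1, 0)) + y ⊗ₜ (L.mkQ (0, 1)), ?_⟩
    rw [map_add, LinearMap.liftBaseChange_tmul, LinearMap.liftBaseChange_tmul]
    have e1 : f (L.mkQ (1, 0)) = (1, 0) := by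
      change f0 (1, 0) = _
      simp [f0]
    have e2 : f (L.mkQ (0, 1)) = (0, 1) := by
      change f0 (0, 1) = _
      simp [f0]
    rw [e1, e2]
    simp
  have hle := LinearMap.finrank_le_finrank_of_surjective hsurj
  have hr : Module.finrank (R ⧸ m) ((R ⧸ m) ⊗[R] ((R × R) ⧸ L)) = 1 := by
    have := Module.rankAtStalk_baseChange (R := R) (M := ((R × R) ⧸ L)) (S := R ⧸ m)
      (⊥ : PrimeSpectrum (R ⧸ m))
    rw [h3, Module.rankAtStalk_eq_finrank_of_free] at this
    exact_mod_cast this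
  rw [hr, Module.finrank_prod, Module.finrank_self] at hle
  omega

theorem exists_beta (L : Submodule R (R × R)) (hL : LocFree R ((R × R) ⧸ L) 1)
    (hx : ∀ v ∈ L, ((v.2, 0) : R × R) ∈ L) :
    ∃ β : R, β * β = 0 ∧ ∀ v : R × R, v ∈ L ↔ v.2 = β * v.1 := by
  have htop : Submodule.map (LinearMap.fst R R R) L = ⊤ := by
    apply eq_top_of_rank_one L hL
    intro v hv
    exact ⟨⟨v, hv, rfl⟩, ⟨_, hx v hv, rfl⟩⟩
  obtain ⟨v, hv, hv1⟩ : (1 : R) ∈ Submodule.map (LinearMap.fst R R R) L := by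
    rw [htop]
    exact Submodule.mem_top
  set β := v.2 with hβ
  have hv' : v = (1, β) := Prod.ext hv1 rfl
  -- the submodule `{(a, β a)}`
  let g : R × R →ₗ[R] R := LinearMap.snd R R R - β • LinearMap.fst R R R
  have hg : ∀ w : R × R, g w = w.2 - β * w.1 := fun w => rfl
  have hgs : Function.Surjective g := fun y => ⟨(0, y), by rw [hg]; simp⟩
  have h1 : LocFree R ((R × R) ⧸ LinearMap.ker g) 1 := by
    have h0 : LocFree R (Unit → R) (Fintype.card Unit) := locFree_pi (LinearEquiv.refl R _)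
    rw [Fintype.card_unit] at h0
    exact h0.of_equiv ((LinearEquiv.funUnique Unit R R).trans
      (g.quotKerEquivOfSurjective hgs).symm)
  have hle : LinearMap.ker g ≤ L := by
    intro w hw
    rw [LinearMap.mem_ker, hg, sub_eq_zero] at hw
    have : w = w.1 • v := by
      rw [hv']
      refine Prod.ext ?_ ?_
      · simp
      · simp only [Prod.smul_snd, smul_eq_mul, hw, mul_comm]
    rw [this]
    exact L.smul_mem _ hv
  have heq := LocFree.eq_of_le h1 hL hle
  have hmem : ∀ w : R × R, w ∈ L ↔ w.2 = β * w.1 := by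
    intro w
    rw [← heq, LinearMap.mem_ker, hg, sub_eq_zero]
  refine ⟨β, ?_, hmem⟩
  have := (hmem _).1 (hx v hv)
  simpa using this.symm

end Pool.Agent.H9.FatPoint
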