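import Pool.Agent.H9.FatPoint.Defs

/-!
# The family of ideals parametrised by `β` with `β² = 0`
-/

namespace Pool.Agent.H9.FatPoint

open MvPolynomial

variable {R : Type} [CommRing R]

/-- The exponent of `x^i y^j z^l`. -/
noncomputable def E (i j l : ℕ) : Fin 3 →₀ ℕ :=
  Finsupp.single 0 i + Finsupp.single 1 j + Finsupp.single 2 l

@[simp] theorem E_zero (i j l : ℕ) : E i j l 0 = i := by simp [E]
@[simp] theorem E_one (i j l : ℕ) : E i j l 1 = j := by simp [E]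
@[simp] theorem E_two (i j l : ℕ) : E i j l 2 = l := by simp [E]

theorem E_eta (m : Fin 3 →₀ ℕ) : m = E (m 0) (m 1) (m 2) := by
  ext i
  fin_cases i <;> simp

theorem E_inj {i j l i' j' l' : ℕ} : E i j l = E i' j' l' ↔ i = i' ∧ j = j' ∧ l = l' := by
  constructor
  · intro h
    refine ⟨?_, ?_, ?_⟩
    · simpa using DFunLike.congr_fun h 0
    · simpa using DFunLike.congr_fun h 1
    · simpa using DFunLike.congr_fun h 2
  · rintro ⟨rfl, rfl, rfl⟩
    rfl

theorem weight_E (i j l : ℕ) :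
    Finsupp.weight deg3 (E i j l) = ((i : ℤ) + l, (j : ℤ) + l) := by
  simp [E, deg3, map_add, Finsupp.weight_single]

/-- Coefficient of `x^i y^j z^l`. -/
noncomputable def q (i j l : ℕ) : MvPolynomial (Fin 3) R →ₗ[R] R := lcoeff R (E i j l)

theorem q_apply (i j l : ℕ) (p : MvPolynomial (Fin 3) R) : q i j l p = coeff (E i j l) p := rfl

theorem q_mul_X0 (i j l : ℕ) (p : MvPolynomial (Fin 3) R) :
    q i j l (p * X 0) = if i = 0 then 0 else q (i - 1) j l p := by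
  classical
  rw [q_apply, coeff_mul_X']
  by_cases h : i = 0
  · subst h
    simp
  · have : (0 : Fin 3) ∈ (E i j l).support := by simp [h]
    rw [if_pos this, if_neg h, q_apply]
    congr 1
    ext s
    fin_cases s <;> simp

theorem q_mul_X1 (i j l : ℕ) (p : MvPolynomial (Fin 3) R) :
    q i j l (p * X 1) = if j = 0 then 0 else q i (j - 1) l p := by
  classical
  rw [q_apply, coeff_mul_X']
  by_cases h : j = 0
  · subst h
    simp
  · have : (1 : Fin 3) ∈ (E i j l).support := by simp [h]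
    rw [if_pos this, if_neg h, q_apply]
    congr 1
    ext s
    fin_cases s <;> simp

theorem q_mul_X2 (i j l : ℕ) (p : MvPolynomial (Fin 3) R) :
    q i j l (p * X 2) = if l = 0 then 0 else q i j (l - 1) p := by
  classical
  rw [q_apply, coeff_mul_X']
  by_cases h : l = 0
  · subst h
    simp
  · have : (2 : Fin 3) ∈ (E i j l).support := by simp [h]
    rw [if_pos this, if_neg h, q_apply]
    congr 1
    ext s
    fin_cases s <;> simp

/-- The coordinates of a polynomial modulo the ideal. -/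
noncomputable def F (β : R) : Fin 12 → (MvPolynomial (Fin 3) R →ₗ[R] R) :=
  ![q 0 0 0, q 0 1 0, q 0 2 0, q 0 3 0, q 1 0 0, q 1 1 0, q 0 0 1,
    q 0 1 1 - β • q 1 2 0, q 0 2 1 - β • q 1 3 0, q 1 0 1,
    q 0 0 2 - β • q 1 1 1, q 0 1 2 - β • q 1 2 1]

/-- The standard monomials. -/
noncomputable def e : Fin 12 → (Fin 3 →₀ ℕ) :=
  ![E 0 0 0, E 0 1 0, E 0 2 0, E 0 3 0, E 1 0 0, E 1 1 0, E 0 0 1,
    E 0 1 1, E 0 2 1, E 1 0 1, E 0 0 2, E 0 1 2]

theorem F_forall (β : R) (p : MvPolynomial (Fin 3) R) : (∀ s, F β s p = 0) ↔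
    q 0 0 0 p = 0 ∧ q 0 1 0 p = 0 ∧ q 0 2 0 p = 0 ∧ q 0 3 0 p = 0 ∧ q 1 0 0 p = 0 ∧
    q 1 1 0 p = 0 ∧ q 0 0 1 p = 0 ∧ q 0 1 1 p = β * q 1 2 0 p ∧ q 0 2 1 p = β * q 1 3 0 p ∧
    q 1 0 1 p = 0 ∧ q 0 0 2 p = β * q 1 1 1 p ∧ q 0 1 2 p = β * q 1 2 1 p := by
  simp only [Fin.forall_fin_succ, F]
  simp [sub_eq_zero, Fin.succ]

end Pool.Agent.H9.FatPoint
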